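import Mathlib
import Pool.Agent.TH417.GNSWilf
import Pool.Agent.TH417.GNSCore

/-!
The extended Wilf inequality for generalized numerical semigroups, in every dimension `d ≥ 2`
and for every admissible monomial order.

For every `d ≥ 1`, every submonoid `S` of `ℕ^d` with finite nonempty complement and every
monomial order in which each element has finitely many predecessors,
`d * (n + g) < 2 * (n * e)`, where `n` is the number of elements of `S` preceding the Frobenius
element, `g` the genus and `e` the embedding dimension.  For `d ≥ 2` this gives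
`n * e ≥ n + g + 1`.
-/

namespace Pool.Agent.Results.MP_4a5405_co.WilfHigherDim

/-- A monomial order on `ℕ^d` (given by its strict relation) in which every element has only
finitely many predecessors. -/
structure IsAdmissibleOrder (d : ℕ) (lt : (Fin d → ℕ) → (Fin d → ℕ) → Prop) : Prop where
  irrefl : ∀ a, ¬ lt a a
  trans : ∀ a b c, lt a b → lt b c → lt a c
  trichotomy : ∀ a b, lt a b ∨ a = b ∨ lt b a
  add_right : ∀ a b c, lt a b → lt (a + c) (b + c)
  zero_least : ∀ a, a = 0 ∨ lt 0 a
  finite_predecessors : ∀ a, {b | lt b a}.Finite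

/-- The set of holes `H(S)`. -/
def holes {d : ℕ} (S : AddSubmonoid (Fin d → ℕ)) : Set (Fin d → ℕ) := {x | x ∉ S}

/-- The genus `g(S)`, the number of holes. -/
noncomputable def genus {d : ℕ} (S : AddSubmonoid (Fin d → ℕ)) : ℕ := (holes S).ncard

/-- The minimal generating set `G(S)`: the nonzero elements of `S` that are not a sum of two
nonzero elements of `S`. -/
def minGenerators {d : ℕ} (S : AddSubmonoid (Fin d → ℕ)) : Set (Fin d → ℕ) :=
  {x | x ∈ S ∧ x ≠ 0 ∧ ∀ a ∈ S, ∀ b ∈ S, a ≠ 0 → b ≠ 0 → a + b ≠ x}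

/-- The embedding dimension `e(S)`. -/
noncomputable def embDim {d : ℕ} (S : AddSubmonoid (Fin d → ℕ)) : ℕ := (minGenerators S).ncard

/-- `F` is the Frobenius element of `S` for the order `lt`: the largest hole. -/
def IsFrobenius {d : ℕ} (lt : (Fin d → ℕ) → (Fin d → ℕ) → Prop) (S : AddSubmonoid (Fin d → ℕ))
    (F : Fin d → ℕ) : Prop :=
  F ∈ holes S ∧ ∀ h ∈ holes S, h = F ∨ lt h F

/-- The number of elements of `S` preceding `F`. -/
noncomputable def nBelow {d : ℕ} (lt : (Fin d → ℕ) → (Fin d → ℕ) → Prop)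
    (S : AddSubmonoid (Fin d → ℕ)) (F : Fin d → ℕ) : ℕ := {x | x ∈ S ∧ lt x F}.ncard

open Pool.Agent.TH417.GNSWilf in
open scoped Classical in
/-- Initial segments of an admissible monomial order are level sets of positive functionals. -/
theorem exists_weights {d : ℕ} {lt : (Fin d → ℕ) → (Fin d → ℕ) → Prop}
    (h : IsAdmissibleOrder d lt) (F : Fin d → ℕ) :
    ∃ ω : Fin d → ℝ, (∀ i, 0 < ω i) ∧ ∀ x, (x = F ∨ lt x F) ↔ phi ω x ≤ phi ω F := by
  set Q : (Fin d → ℤ) → Prop := fun v => ∃ a b : Fin d → ℕ, lt a b ∧ ∀ i, v i = (b i : ℤ) - a i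
    with hQ
  have hadd : ∀ v w, Q v → Q w → Q (v + w) := by
    rintro v w ⟨a, b, hab, hv⟩ ⟨a', b', hab', hw⟩
    refine ⟨a + a', b + b', ?_, fun i => ?_⟩
    · have h1 := h.add_right _ _ a' hab
      have h2 := h.add_right _ _ b hab'
      rw [add_comm a' b, add_comm b' b] at h2
      exact h.trans _ _ _ h1 h2
    · simp only [Pi.add_apply, hv, hw]
      push_cast
      ring
  have h0 : ¬ Q 0 := by
    rintro ⟨a, b, hab, hv⟩
    have : a = b := by
      funext i
      have := hv i
      simp at this
      omega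
    rw [this] at hab
    exact h.irrefl _ hab
  set P : Finset (Fin d → ℕ) := (h.finite_predecessors F).toFinset with hP
  have hmemP : ∀ x, x ∈ P ↔ lt x F := by
    intro x
    simp [hP]
  set A1 : Finset (Fin d → ℤ) := Finset.univ.image (fun l : Fin d => (Pi.single l 1 : Fin d → ℤ))
    with hA1
  set A2 : Finset (Fin d → ℤ) := P.image (fun x i => (F i : ℤ) - x i) with hA2
  set A3 : Finset (Fin d → ℤ) :=
    (((insert F P) ×ˢ (Finset.univ : Finset (Fin d))).filter
      (fun p => lt F (p.1 + Pi.single p.2 1))).image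
      (fun p i => ((p.1 + Pi.single p.2 1 : Fin d → ℕ) i : ℤ) - F i) with hA3
  obtain ⟨ω, hω⟩ := exists_pos_functional d Q hadd h0 (A1 ∪ A2 ∪ A3) (by
    intro v hv
    rcases Finset.mem_union.1 hv with hv | hv
    · rcases Finset.mem_union.1 hv with hv | hv
      · obtain ⟨l, _, rfl⟩ := Finset.mem_image.1 hv
        refine ⟨0, Pi.single l 1, ?_, fun i => ?_⟩
        · rcases h.zero_least (Pi.single l 1) with h1 | h1
          · have := congrFun h1 l
            simp at this
          · exact h1
        · by_cases hi : i = l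
          · subst hi
            simp
          · simp [Pi.single_eq_of_ne hi]
      · obtain ⟨x, hx, rfl⟩ := Finset.mem_image.1 hv
        exact ⟨x, F, (hmemP x).1 hx, fun i => rfl⟩
    · obtain ⟨p, hp, rfl⟩ := Finset.mem_image.1 hv
      exact ⟨F, _, (Finset.mem_filter.1 hp).2, fun i => rfl⟩)
  have hpos : ∀ i, 0 < ω i := by
    intro l
    have h1 := hω (Pi.single l 1) (Finset.mem_union_left _ (Finset.mem_union_left _
      (Finset.mem_image.2 ⟨l, Finset.mem_univ l, rfl⟩)))
    rw [Finset.sum_eq_single l] at h1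
    · simpa using h1
    · intro b _ hb
      simp [Pi.single_eq_of_ne hb]
    · simp
  have hdiff : ∀ x y : Fin d → ℕ, ∑ i, ω i * (((y i : ℤ) - (x i : ℤ) : ℤ) : ℝ) =
      phi ω y - phi ω x := by
    intro x y
    simp only [phi, ← Finset.sum_sub_distrib]
    refine Finset.sum_congr rfl fun i _ => ?_
    push_cast
    ring
  have hbelow : ∀ x, lt x F → phi ω x < phi ω F := by
    intro x hx
    have h1 := hω (fun i => (F i : ℤ) - x i) (Finset.mem_union_left _ (Finset.mem_union_right _
      (Finset.mem_image.2 ⟨x, (hmemP x).2 hx, rfl⟩)))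
    rw [hdiff] at h1
    linarith
  have habove : ∀ (n : ℕ) (x : Fin d → ℕ), ∑ i, x i = n → lt F x → phi ω F < phi ω x := by
    intro n
    induction n with
    | zero =>
      intro x hx hFx
      have hx0 : x = 0 := by
        funext i
        exact (Finset.sum_eq_zero_iff.1 hx) i (Finset.mem_univ i)
      subst hx0
      rcases h.zero_least F with h1 | h1
      · rw [h1] at hFx
        exact absurd hFx (h.irrefl _)
      · exact absurd (h.trans _ _ _ h1 hFx) (h.irrefl _)
    | succ n ih =>
      intro x hx hFx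
      obtain ⟨l, hl⟩ : ∃ l, x l ≠ 0 := by
        by_contra hcon
        push Not at hcon
        simp [hcon] at hx
      have hle : (Pi.single l 1 : Fin d → ℕ) ≤ x := (single_le_iff l x).2 hl
      obtain ⟨z, rfl⟩ : ∃ z, x = z + Pi.single l 1 :=
        ⟨x - Pi.single l 1, (tsub_add_cancel_of_le hle).symm⟩
      have hz : ∑ i, z i = n := by
        have : ∑ i, (z + Pi.single l 1 : Fin d → ℕ) i = ∑ i, z i + 1 := by
          simp [Finset.sum_add_distrib]
        omega
      rcases h.trichotomy z F with h1 | h1 | h1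
      · have h2 := hω (fun i => ((z + Pi.single l 1 : Fin d → ℕ) i : ℤ) - F i)
          (Finset.mem_union_right _ (Finset.mem_image.2 ⟨(z, l), Finset.mem_filter.2
            ⟨Finset.mem_product.2 ⟨Finset.mem_insert_of_mem ((hmemP z).2 h1),
              Finset.mem_univ l⟩, hFx⟩, rfl⟩))
        rw [hdiff] at h2
        linarith
      · have h2 := hω (fun i => ((z + Pi.single l 1 : Fin d → ℕ) i : ℤ) - F i)
          (Finset.mem_union_right _ (Finset.mem_image.2 ⟨(z, l), Finset.mem_filter.2
            ⟨Finset.mem_product.2 ⟨by rw [h1]; exact Finset.mem_insert_self _ _,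
              Finset.mem_univ l⟩, hFx⟩, rfl⟩))
        rw [hdiff] at h2
        linarith
      · have h2 := ih z hz h1
        rw [phi_add, phi_single]
        linarith [hpos l]
  refine ⟨ω, hpos, fun x => ⟨?_, ?_⟩⟩
  · rintro (rfl | hx)
    · exact le_refl _
    · exact (hbelow x hx).le
  · intro hx
    rcases h.trichotomy x F with h1 | h1 | h1
    · exact Or.inr h1
    · exact Or.inl h1
    · exact absurd (habove _ x rfl h1) (not_lt.2 hx)

open Pool.Agent.TH417.GNSWilf in
open scoped Classical in
/-- For every `d ≥ 1`, every generalized numerical semigroup `S ≠ ℕ^d` and every admissible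
monomial order, `d * N(Fb(S)) < 2 * n * e`, where `N(Fb(S)) = n + g`.  Hence for `d ≥ 2` the
extended Wilf inequality `n * e ≥ N(Fb(S)) + 1` holds. -/
theorem result (d : ℕ) (hd : 1 ≤ d) (S : AddSubmonoid (Fin d → ℕ))
    (_hfin : (holes S).Finite) (lt : (Fin d → ℕ) → (Fin d → ℕ) → Prop)
    (hlt : IsAdmissibleOrder d lt) (F : Fin d → ℕ) (hF : IsFrobenius lt S F) :
    d * (nBelow lt S F + genus S) < 2 * (nBelow lt S F * embDim S) ∧
    (2 ≤ d → nBelow lt S F * embDim S ≥ (nBelow lt S F + genus S) + 1) := by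
  obtain ⟨hF1, hF2⟩ := hF
  obtain ⟨ω, hω, hlev⟩ := exists_weights hlt F
  have hgap : ∀ x, x ∉ S → phi ω x ≤ phi ω F := fun x hx => (hlev x).1 (hF2 x hx)
  have hτ : 0 ≤ phi ω F := phi_nonneg hω F
  obtain ⟨G, hG⟩ := gen_bounded hω S (phi ω F) hτ hgap
  have hcore := core hω S (phi ω F) hτ hgap G hG (by omega)
  have he : embDim S = G.card := by
    have : minGenerators S = (G : Set (Fin d → ℕ)) := by
      ext x
      rw [Finset.mem_coe, hG x]
      rfl
    rw [embDim, this, Set.ncard_coe_finset]
  have hn : nBelow lt S F = ((lev ω (phi ω F)).filter (fun x => x ∈ S)).card := by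
    have : {x | x ∈ S ∧ lt x F} =
        (((lev ω (phi ω F)).filter (fun x => x ∈ S) : Finset (Fin d → ℕ)) : Set (Fin d → ℕ)) := by
      ext x
      simp only [Set.mem_ofPred_eq, Finset.coe_filter, mem_lev hω]
      constructor
      · rintro ⟨h1, h2⟩
        exact ⟨(hlev x).1 (Or.inr h2), h1⟩
      · rintro ⟨h1, h2⟩
        rcases (hlev x).2 h1 with h3 | h3
        · exact absurd (h3 ▸ h2) hF1
        · exact ⟨h2, h3⟩
    rw [nBelow, this, Set.ncard_coe_finset]
  have hg : genus S = ((lev ω (phi ω F)).filter (fun x => ¬ x ∈ S)).card := by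
    have : holes S =
        (((lev ω (phi ω F)).filter (fun x => ¬ x ∈ S) : Finset (Fin d → ℕ)) : Set (Fin d → ℕ)) := by
      ext x
      simp only [Finset.coe_filter, mem_lev hω]
      exact ⟨fun h => ⟨hgap x h, h⟩, fun h => h.2⟩
    rw [genus, this, Set.ncard_coe_finset]
  have hN : nBelow lt S F + genus S = (lev ω (phi ω F)).card := by
    rw [hn, hg]
    exact Finset.card_filter_add_card_filter_not _
  rw [← hN, ← hn, ← he] at hcore
  refine ⟨hcore, fun hd2 => ?_⟩
  have h2 : 2 * (nBelow lt S F + genus S) ≤ d * (nBelow lt S F + genus S) :=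
    Nat.mul_le_mul_right _ hd2
  omega

end Pool.Agent.Results.MP_4a5405_co.WilfHigherDim
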